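import Mathlib
import Pool.Agent.Lib.MP_a839f6_an.Defs
import Pool.Agent.Lib.MP_a839f6_an.Main

open MeasureTheory Filter Topology Pool.Agent.Lib.MP_a839f6_an

/-- For every compact `K` in complex `n`-space and every finite Borel measure carried by `K`, the
transfinite diameter `δ` exists, and condition (R) holds if and only if condition (Z) holds. -/
theorem Pool.Agent.Results.MP_a839f6_an.Equivalence.result
    (n : ℕ) (hn : 1 ≤ n) (K : Set (Fin n → ℂ)) (hK : IsCompact K)
    (μ : Measure (Fin n → ℂ)) [IsFiniteMeasure μ] (hμ : μ Kᶜ = 0) :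
    ∃ δ : ℝ,
      Tendsto (fun k : ℕ => (⨆ x : Idx n k → K, ‖vdm k fun β => x β‖) ^ (1 / ell n k))
        atTop (𝓝 δ) ∧
      ((∀ p : ℕ → MvPolynomial (Fin n) ℂ, (∀ j, p j ≠ 0) →
          Tendsto (fun j => (p j).totalDegree) atTop atTop → ∀ z : Fin n → ℂ,
            limsup (fun j => (‖MvPolynomial.eval z (p j)‖ₑ /
                eLpNorm (fun x => MvPolynomial.eval x (p j)) 2 μ) ^
              (1 / ((p j).totalDegree : ℝ))) atTop ≤ EReal.exp (limsup (extremal K) (𝓝 z))) ↔
        Tendsto (fun k : ℕ => (∫ x, ‖vdm k x‖ ^ 2 ∂Measure.pi fun _ : Idx n k => μ) ^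
          (1 / (2 * ell n k))) atTop (𝓝 δ)) :=
  main hn hK hμ
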